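import Mathlib
import Pool.Agent.W_ef8234_h97.Stmt
import Pool.Agent.W_ef8234_rv.RFinal

/-!
# MP_ef8234_an: in class `C^2` the conclusion of Q1 fails for almost every standard i.e.m.

For every irreducible datum and Lebesgue almost every length vector: for every `η ∈ (0, 1)` the
set of the `C^2` simple deformations `T = T₀ + F` of `T₀` for which a `C^1` diffeomorphism `h`
with `|h' - 1| < η` conjugates `T₀` to `T` coincides near `T₀` (in the `C^2` topology) with no
locally closed set, in particular with no `C^1` submanifold of any finite codimension.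
-/

namespace Pool.Agent.Results.MP_ef8234_an.AlmostEveryC2

open MeasureTheory Pool.Agent.W_ef8234_h97
open scoped Topology

theorem result (d : ℕ) (hd : 2 ≤ d) (p : Equiv.Perm (Fin d)) (hp : W_ef8234_h97.Irreducible p) :
    ∀ᵐ l ∂(volume : Measure (Fin d → ℝ)), (∀ i, 0 < l i) → ∀ η : ℝ, 0 < η → η < 1 →
      (¬ ∃ S : Set (DSpace 2 l), IsLocallyClosed S ∧
        ∀ᶠ g in 𝓝 (0 : DSpace 2 l), (g ∈ S ↔ g ∈ ConjSet 2 p l η)) ∧
      ∀ c : ℕ, ¬ ∃ S : Set (DSpace 2 l), IsC1Submanifold c S ∧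
        ∀ᶠ g in 𝓝 (0 : DSpace 2 l), (g ∈ S ↔ g ∈ ConjSet 2 p l η) := by
  filter_upwards [W_ef8234_rv.ae_not_locallyClosed d hd p hp] with l h hl η hη hη1
  have key := not_locallyClosed_transfer 2 p l η (h hl η hη hη1)
  refine ⟨key, fun c => ?_⟩
  rintro ⟨S, hS, hS'⟩
  exact key ⟨S, hS.isLocallyClosed, hS'⟩

end Pool.Agent.Results.MP_ef8234_an.AlmostEveryC2
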