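import Mathlib
import Pool.Agent.W_ef8234_h97.Stmt
import Pool.Agent.W_ef8234_h97.Resid

/-!
# MP_ef8234_an: for topologically generic standard i.e.m. the conclusion of Q1 fails

For every irreducible datum, all length vectors in a residual set (a countable intersection of
dense open sets) have the following property: for every class `C^R`, `R ≥ 1` (`R = 4` in Q1),
and every `η ∈ (0, 1)`, the set of the `C^R` simple deformations `T = T₀ + F` of `T₀` for which
a `C^1` diffeomorphism `h` with `|h' - 1| < η` conjugates `T₀` to `T` coincides near `T₀` with no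
locally closed subset of the space of deformations, in particular with no `C^1` submanifold of
any finite codimension.
-/

namespace Pool.Agent.Results.MP_ef8234_an.GenericFailure

open Pool.Agent.W_ef8234_h97
open scoped Topology

theorem result (d : ℕ) (hd : 2 ≤ d) (p : Equiv.Perm (Fin d)) (hp : W_ef8234_h97.Irreducible p) :
    ∀ᶠ l in residual (Fin d → ℝ), (∀ i, 0 < l i) →
      ∀ R : ℕ, 1 ≤ R → ∀ η : ℝ, 0 < η → η < 1 →
        (¬ ∃ S : Set (DSpace R l), IsLocallyClosed S ∧
          ∀ᶠ g in 𝓝 (0 : DSpace R l), (g ∈ S ↔ g ∈ ConjSet R p l η)) ∧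
        ∀ c : ℕ, ¬ ∃ S : Set (DSpace R l), IsC1Submanifold c S ∧
          ∀ᶠ g in 𝓝 (0 : DSpace R l), (g ∈ S ↔ g ∈ ConjSet R p l η) := by
  filter_upwards [residual_ratIndep (d := d), residual_liouvillian (d := d)] with l h1 h2 hl R hR η
    hη hη1
  have key := not_locallyClosed_transfer R p l η
    (not_locallyClosed hd p hp l hl h1 h2 R hR η hη hη1)
  refine ⟨key, fun c => ?_⟩
  rintro ⟨S, hS, hS'⟩
  exact key ⟨S, hS.isLocallyClosed, hS'⟩

end Pool.Agent.Results.MP_ef8234_an.GenericFailure
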