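import Mathlib
import Pool.Agent.W_ef8234_h97.Stmt
import Pool.Agent.W_ef8234_h97.Nec

/-!
# MP_ef8234_an: a Diophantine condition which is necessary for the conclusion of Q1

Let `T₀` be any standard i.e.m., `R ≥ 2` (`R = 4` in Q1) and `η ∈ (0, 1)`.  If the set of the
`C^R` simple deformations `T` of `T₀` for which a `C^1` diffeomorphism `h` with `|h' - 1| < η`
conjugates `T₀` to `T` coincides near `T₀` with a locally closed set (for instance with a `C^1`
submanifold), then there is `c > 0` such that every cylinder of `T₀` of width `w` and height `q`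
whose displacement `s` is not zero satisfies `c q w^R ≤ |s|`.
-/

namespace Pool.Agent.Results.MP_ef8234_an.NecessaryCylinders

open Pool.Agent.W_ef8234_h97
open scoped Topology

theorem result (d : ℕ) (p : Equiv.Perm (Fin d)) (l : Fin d → ℝ) (hl : ∀ i, 0 < l i)
    (R : ℕ) (hR : 2 ≤ R) (η : ℝ) (hη : 0 < η) (hη1 : η < 1)
    (h : ∃ S : Set (DSpace R l), (IsLocallyClosed S ∨ ∃ c, IsC1Submanifold c S) ∧
      ∀ᶠ g in 𝓝 (0 : DSpace R l), (g ∈ S ↔ g ∈ ConjSet R p l η)) :
    ∃ c : ℝ, 0 < c ∧ ∀ (x : ℕ → ℝ) (q : ℕ) (w s : ℝ), IsCylinder p l x q w s →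
      s ≠ 0 → c * q * w ^ R ≤ |s| := by
  obtain ⟨S, hS, hS'⟩ := h
  have hS2 : IsLocallyClosed S := by
    rcases hS with hS | ⟨c, hS⟩
    · exact hS
    · exact hS.isLocallyClosed
  exact necessary p l hl R hR η hη hη1 (locallyClosed_transfer R p l η ⟨S, hS2, hS'⟩)

end Pool.Agent.Results.MP_ef8234_an.NecessaryCylinders
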